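import Mathlib

set_option autoImplicit false

namespace Pool.Agent.N392.TreeStab

/-- The Euclidean plane. -/
abbrev Plane : Type := EuclideanSpace ℝ (Fin 2)

/-- The line with the equation `a x + b y = c`, where `(a, b) ≠ (0, 0)`. -/
def IsLine (ℓ : Set Plane) : Prop :=
  ∃ a b c : ℝ, (a ≠ 0 ∨ b ≠ 0) ∧ ℓ = {x | a * x 0 + b * x 1 = c}

/-- `ℓ` stabs the closed segment with endpoints `p`, `q`: the intersection is a single point, which
lies in the relative interior of the segment. -/
def Stabs (ℓ : Set Plane) (p q : Plane) : Prop :=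
  ∃ x ∈ openSegment ℝ p q, ℓ ∩ segment ℝ p q = {x}

/-- The edges of `G` stabbed by `ℓ`. -/
def stabbedEdges {S : Finset Plane} (G : SimpleGraph S) (ℓ : Set Plane) : Set (Sym2 S) :=
  {e | ∃ p q : S, G.Adj p q ∧ Stabs ℓ p q ∧ e = s(p, q)}

/-- The stabbing number of `G`: the maximum over all lines of the number of stabbed edges. -/
noncomputable def stabbingNumber {S : Finset Plane} (G : SimpleGraph S) : ℕ∞ :=
  ⨆ (ℓ : Set Plane) (_ : IsLine ℓ), (stabbedEdges G ℓ).encard

/-- `TREE-STAB(S)`: the minimum stabbing number of a tree with vertex set `S`. -/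
noncomputable def treeStab (S : Finset Plane) : ℕ∞ :=
  ⨅ (G : SimpleGraph S) (_ : G.IsTree), stabbingNumber G

end Pool.Agent.N392.TreeStab
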