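import Mathlib
import Pool.Agent.N392.TreeStab.Defs

set_option autoImplicit false

namespace Pool.Agent.N392.TreeStab

/-! ### Stabbing -/

theorem stabs_of_neg {a b c : ℝ} {p q : Plane}
    (h : (a * p 0 + b * p 1 - c) * (a * q 0 + b * q 1 - c) < 0) :
    Stabs {x | a * x 0 + b * x 1 = c} p q := by
  set u := a * p 0 + b * p 1 - c with hu
  set v := a * q 0 + b * q 1 - c with hv
  have hne : u - v ≠ 0 := by
    intro h0
    have : u = v := by linarith
    rw [this] at h
    nlinarith [mul_self_nonneg v]
  have hx : ∀ s : ℝ, a * ((1 - s) • p + s • q) 0 + b * ((1 - s) • p + s • q) 1 - c =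
      (1 - s) * u + s * v := by
    intro s
    simp only [PiLp.add_apply, PiLp.smul_apply, smul_eq_mul]
    rw [hu, hv]
    ring
  have ht0 : 0 < u / (u - v) ∧ u / (u - v) < 1 := by
    rcases lt_or_gt_of_ne hne with h1 | h1
    · have hu0 : u < 0 := by
        by_contra hcon
        push Not at hcon
        have : 0 < v := by linarith
        nlinarith
      have hv0 : 0 < v := by
        by_contra hcon
        push Not at hcon
        nlinarith
      constructor
      · exact div_pos_of_neg_of_neg hu0 h1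
      · rw [div_lt_one_of_neg h1]
        linarith
    · have hu0 : 0 < u := by
        by_contra hcon
        push Not at hcon
        have : v < 0 := by linarith
        nlinarith
      have hv0 : v < 0 := by
        by_contra hcon
        push Not at hcon
        nlinarith
      constructor
      · exact div_pos hu0 h1
      · rw [div_lt_one h1]
        linarith
  refine ⟨(1 - u / (u - v)) • p + (u / (u - v)) • q,
    ⟨1 - u / (u - v), u / (u - v), by linarith [ht0.2], ht0.1, by ring, rfl⟩, ?_⟩
  ext y
  simp only [Set.mem_inter_iff, Set.mem_ofPred_eq, Set.mem_singleton_iff]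
  constructor
  · rintro ⟨h1, r, s, hr, hs, hrs, rfl⟩
    have hr' : r = 1 - s := by linarith
    subst hr'
    have h2 := hx s
    have h3 : (1 - s) * u + s * v = 0 := by rw [← h2]; linarith
    have h4 : s = u / (u - v) := by
      rw [eq_div_iff hne]
      linarith
    rw [h4]
  · rintro rfl
    refine ⟨?_, ⟨1 - u / (u - v), u / (u - v), by linarith [ht0.2], ht0.1.le, by ring, rfl⟩⟩
    have h2 := hx (u / (u - v))
    have h3 : (1 - u / (u - v)) * u + u / (u - v) * v = 0 := by
      field_simp
      ring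
    rw [h3] at h2
    linarith

/-- If `ℓ` stabs a segment on a ray from the origin, then it meets the ray transversally. -/
theorem of_stabs {a b c : ℝ} {v : Plane} (hv : v ≠ 0) {s t : ℝ} (hst : s < t)
    (h : Stabs {x | a * x 0 + b * x 1 = c} (s • v) (t • v)) :
    ∃ r, s < r ∧ r < t ∧ c = r * (a * v 0 + b * v 1) ∧ a * v 0 + b * v 1 ≠ 0 := by
  obtain ⟨x, hx, hxe⟩ := h
  have hxm : x ∈ ({x | a * x 0 + b * x 1 = c} : Set Plane) ∩ segment ℝ (s • v) (t • v) := by
    rw [hxe]; rfl
  obtain ⟨α, β, hα, hβ, hαβ, hx'⟩ := hx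
  have h1 := hxm.1
  rw [← hx'] at h1
  simp only [Set.mem_ofPred_eq, PiLp.add_apply, PiLp.smul_apply, smul_eq_mul] at h1
  have hα' : α = 1 - β := by linarith
  subst hα'
  refine ⟨(1 - β) * s + β * t, by nlinarith, by nlinarith, by rw [← h1]; ring, ?_⟩
  intro h0
  have hc : c = 0 := by
    rw [← h1]
    linear_combination ((1 - β) * s + β * t) * h0
  have hall : ∀ r : ℝ, (r • v : Plane) ∈ ({x | a * x 0 + b * x 1 = c} : Set Plane) := by
    intro r
    simp only [Set.mem_ofPred_eq, PiLp.smul_apply, smul_eq_mul]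
    rw [hc]
    linear_combination r * h0
  have e1 : (s • v : Plane) ∈ ({x | a * x 0 + b * x 1 = c} : Set Plane) ∩
      segment ℝ (s • v) (t • v) := ⟨hall s, left_mem_segment ℝ _ _⟩
  have e2 : (t • v : Plane) ∈ ({x | a * x 0 + b * x 1 = c} : Set Plane) ∩
      segment ℝ (s • v) (t • v) := ⟨hall t, right_mem_segment ℝ _ _⟩
  rw [hxe, Set.mem_singleton_iff] at e1 e2
  have h3 : (t - s) • v = 0 := by
    rw [sub_smul, e2, e1, sub_self]
  rcases smul_eq_zero.mp h3 with h4 | h4
  · linarith
  · exact hv h4

/-! ### The two configurations -/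

/-- Coordinates of the six points `v_m, 2 v_m` and of the origin. -/
def px : Fin 7 → ℤ := ![0, 0, -1, -2, 1, 2, 0]

def py : Fin 7 → ℤ := ![1, 2, -1, -2, -1, -2, 0]

noncomputable def pt (i : Fin 7) : Plane := !₂[(px i : ℝ), (py i : ℝ)]

theorem pt_zero (i : Fin 7) : pt i 0 = px i := by simp [pt]

theorem pt_one (i : Fin 7) : pt i 1 = py i := by simp [pt]

theorem p_inj : ∀ i j : Fin 7, px i = px j ∧ py i = py j → i = j := by decide

theorem pt_inj : Function.Injective pt := by
  intro i j h
  have h0 : px i = px j := by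
    have := congrArg (fun v : Plane => v 0) h
    simp only [pt_zero] at this
    exact_mod_cast this
  have h1 : py i = py j := by
    have := congrArg (fun v : Plane => v 1) h
    simp only [pt_one] at this
    exact_mod_cast this
  exact p_inj i j ⟨h0, h1⟩

/-- The first six points. -/
noncomputable def pt6 (i : Fin 6) : Plane := pt i.castSucc

theorem pt6_inj : Function.Injective pt6 := fun i j h => Fin.castSucc_injective _ (pt_inj h)

/-- The seven points. -/
noncomputable def big : Finset Plane := Finset.univ.map ⟨pt, pt_inj⟩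

/-- The six points different from the origin. -/
noncomputable def small : Finset Plane := Finset.univ.map ⟨pt6, pt6_inj⟩

theorem small_subset : small ⊆ big := by
  intro p hp
  simp only [small, Finset.mem_map, Finset.mem_univ, true_and] at hp
  obtain ⟨i, rfl⟩ := hp
  simp only [big, Finset.mem_map, Finset.mem_univ, true_and]
  exact ⟨i.castSucc, rfl⟩

theorem small_nonempty : small.Nonempty := ⟨pt6 0, by
  simp only [small, Finset.mem_map, Finset.mem_univ, true_and]
  exact ⟨0, rfl⟩⟩

/-! ### The lower bound for the six points -/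

/-- The six lines `la x + lb y + 3 = 0`. -/
def la : Fin 6 → ℤ := ![8, -8, 8, -8, 2, -2]

def lb : Fin 6 → ℤ := ![-6, -6, -2, -2, 4, 4]

def val (l : Fin 6) (i : Fin 6) : ℤ := la l * px i.castSucc + lb l * py i.castSucc + 3

def cr (l : Fin 6) : Sym2 (Fin 6) → Bool :=
  Sym2.lift ⟨fun i j => decide (val l i * val l j < 0), fun i j => by simp only [mul_comm (val l i)]⟩

def weight (e : Sym2 (Fin 6)) : ℕ := (Finset.univ.filter fun l => cr l e = true).card

def armSet : Finset (Sym2 (Fin 6)) := {s(0, 1), s(2, 3), s(4, 5)}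

/-- Every pair of points is separated by at least four of the six lines, except for the three
pairs of `armSet`, which are separated by two of the lines. -/
theorem weight_ge' : ∀ i j : Fin 6, i ≠ j → (if s(i, j) ∈ armSet then 2 else 4) ≤ weight s(i, j) := by
  decide

theorem weight_ge (e : Sym2 (Fin 6)) (he : ¬ e.IsDiag) :
    4 ≤ weight e + (if e ∈ armSet then 2 else 0) := by
  induction e with
  | _ i j =>
    have h := weight_ge' i j (by simpa using he)
    split_ifs at h ⊢ <;> omega

theorem comb (G : SimpleGraph (Fin 6)) [DecidableRel G.Adj] (hG : G.IsTree) :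
    ∃ l : Fin 6, 3 ≤ (G.edgeFinset.filter fun e => cr l e = true).card := by
  by_contra hcon
  push Not at hcon
  have h1 : G.edgeFinset.card + 1 = 6 := by simpa using hG.card_edgeFinset
  have h2 : ∑ l : Fin 6, (G.edgeFinset.filter fun e => cr l e = true).card ≤ 12 := by
    calc _ ≤ ∑ l : Fin 6, 2 := Finset.sum_le_sum fun l _ => by have := hcon l; omega
      _ = 12 := by simp
  have h3 : ∑ l : Fin 6, (G.edgeFinset.filter fun e => cr l e = true).card =
      ∑ e ∈ G.edgeFinset, weight e := by
    have := Finset.sum_card_bipartiteAbove_eq_sum_card_bipartiteBelow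
      (s := (Finset.univ : Finset (Fin 6))) (t := G.edgeFinset) (fun l e => cr l e = true)
    simpa [Finset.bipartiteAbove, Finset.bipartiteBelow, weight] using this
  have h4 : ∑ e ∈ G.edgeFinset, 4 ≤ ∑ e ∈ G.edgeFinset, (weight e + if e ∈ armSet then 2 else 0) :=
    Finset.sum_le_sum fun e he => weight_ge e (G.not_isDiag_of_mem_edgeFinset he)
  rw [Finset.sum_add_distrib, Finset.sum_const, ← Finset.sum_filter, Finset.sum_const] at h4
  have h5 : (G.edgeFinset.filter fun e => e ∈ armSet).card ≤ 3 := by
    calc _ ≤ armSet.card := Finset.card_le_card fun e he => (Finset.mem_filter.mp he).2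
      _ = 3 := by decide
  simp only [smul_eq_mul] at h4
  omega

theorem three_le (G : SimpleGraph small) (hG : G.IsTree) : 3 ≤ stabbingNumber G := by
  classical
  let f : Fin 6 → small := fun i => ⟨pt6 i, by simp [small]⟩
  have hf : Function.Bijective f := by
    refine ⟨fun i j h => pt6_inj (congrArg Subtype.val h), ?_⟩
    rintro ⟨p, hp⟩
    have hp' := hp
    simp only [small, Finset.mem_map, Finset.mem_univ, true_and] at hp'
    obtain ⟨i, hi⟩ := hp'
    exact ⟨i, Subtype.ext hi⟩
  let e : Fin 6 ≃ small := Equiv.ofBijective f hf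
  have hH : (G.comap e).IsTree := (SimpleGraph.Iso.comap e G).isTree_iff.mpr hG
  obtain ⟨l, hl⟩ := comb (G.comap e) hH
  have h1 : (3 : ℕ∞) ≤ (stabbedEdges G {x | (la l : ℝ) * x 0 + (lb l : ℝ) * x 1 = -3}).encard := by
    have h2 : (Sym2.map e) '' (((G.comap e).edgeFinset.filter fun a => cr l a = true :
        Finset (Sym2 (Fin 6))) : Set (Sym2 (Fin 6))) ⊆
        stabbedEdges G {x | (la l : ℝ) * x 0 + (lb l : ℝ) * x 1 = -3} := by
      rintro _ ⟨a, ha, rfl⟩
      rw [Finset.mem_coe, Finset.mem_filter, SimpleGraph.mem_edgeFinset] at ha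
      obtain ⟨ha1, ha2⟩ := ha
      induction a with
      | _ i j =>
        refine ⟨e i, e j, ha1, stabs_of_neg ?_, rfl⟩
        have ha3 : val l i * val l j < 0 := by
          simpa [cr] using ha2
        have h5 : ∀ i : Fin 6, (la l : ℝ) * (e i : Plane) 0 + (lb l : ℝ) * (e i : Plane) 1 - -3 =
            ((val l i : ℤ) : ℝ) := by
          intro i
          have : (e i : Plane) = pt i.castSucc := rfl
          rw [this, pt_zero, pt_one, val]
          push_cast
          ring
        rw [h5, h5]
        exact_mod_cast ha3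
    refine le_trans ?_ (Set.encard_le_encard h2)
    rw [(Sym2.map.injective e.injective).encard_image, Set.encard_coe_eq_coe_finsetCard]
    exact_mod_cast hl
  refine h1.trans ?_
  refine le_iSup₂_of_le (f := fun (ℓ : Set Plane) (_ : IsLine ℓ) => (stabbedEdges G ℓ).encard)
    _ ⟨la l, lb l, -3, ?_, rfl⟩ le_rfl
  left
  have : ∀ l, la l ≠ 0 := by decide
  exact_mod_cast this l

/-! ### The star with the centre -/

/-- The three points next to the origin. -/
noncomputable def v (m : Fin 3) : Plane := pt (![0, 2, 4] m)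

/-- The tree: three paths of length two from the origin. -/
def nbr : Fin 7 → Fin 7 → Bool := fun i j =>
  decide ((i, j) ∈ ([(6, 0), (0, 6), (6, 2), (2, 6), (6, 4), (4, 6), (0, 1), (1, 0), (2, 3), (3, 2),
    (4, 5), (5, 4)] : List (Fin 7 × Fin 7)))

def H : SimpleGraph (Fin 7) where
  Adj i j := nbr i j = true
  symm := ⟨by decide⟩
  loopless := ⟨by decide⟩

instance : DecidableRel H.Adj := fun i j => by unfold H; infer_instance

theorem H_tree : H.IsTree := by
  rw [SimpleGraph.isTree_iff_connected_and_card]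
  constructor
  · have hr : ∀ i, H.Reachable 6 i := by
      have a0 : H.Adj 6 0 := by decide
      have a2 : H.Adj 6 2 := by decide
      have a4 : H.Adj 6 4 := by decide
      have a1 : H.Adj 0 1 := by decide
      have a3 : H.Adj 2 3 := by decide
      have a5 : H.Adj 4 5 := by decide
      intro i
      fin_cases i
      · exact a0.reachable
      · exact a0.reachable.trans a1.reachable
      · exact a2.reachable
      · exact a2.reachable.trans a3.reachable
      · exact a4.reachable
      · exact a4.reachable.trans a5.reachable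
      · exact SimpleGraph.Reachable.refl _
    have : Nonempty (Fin 7) := ⟨0⟩
    exact ⟨fun i j => (hr i).symm.trans (hr j)⟩
  · have h1 : H.edgeFinset.card = 6 := by decide
    rw [Nat.card_eq_fintype_card, Nat.card_eq_fintype_card, ← SimpleGraph.edgeFinset_card, h1]
    simp

theorem Stabs.symm {ℓ : Set Plane} {p q : Plane} (h : Stabs ℓ p q) : Stabs ℓ q p := by
  obtain ⟨x, hx, he⟩ := h
  refine ⟨x, ?_, ?_⟩
  · rwa [openSegment_symm]
  · rwa [segment_symm]

/-- The inner and the outer edge of each of the three arms. -/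
def inner' : Fin 3 → Sym2 (Fin 7) := ![s(6, 0), s(6, 2), s(6, 4)]

def outer' : Fin 3 → Sym2 (Fin 7) := ![s(0, 1), s(2, 3), s(4, 5)]

theorem v_ne (m : Fin 3) : v m ≠ 0 := by
  have h6 : pt 6 = 0 := by
    ext i
    fin_cases i
    · simp [pt, px]
    · simp [pt, py]
  have : ∀ m : Fin 3, (![0, 2, 4] m : Fin 7) ≠ 6 := by decide
  intro h
  exact this m (pt_inj (by rw [h6]; exact h))

theorem pt_arm (m : Fin 3) :
    pt (![0, 2, 4] m) = (1 : ℝ) • v m ∧ pt (![1, 3, 5] m) = (2 : ℝ) • v m ∧
      pt 6 = (0 : ℝ) • v m := by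
  have hx : ∀ m : Fin 3, px (![1, 3, 5] m) = 2 * px (![0, 2, 4] m) := by decide
  have hy : ∀ m : Fin 3, py (![1, 3, 5] m) = 2 * py (![0, 2, 4] m) := by decide
  refine ⟨by rw [one_smul]; rfl, ?_, ?_⟩
  · ext i
    fin_cases i
    · simp [v, pt, hx]
    · simp [v, pt, hy]
  · ext i
    fin_cases i
    · simp [v, pt, px]
    · simp [v, pt, py]

theorem adj_cases : ∀ i j : Fin 7, nbr i j = true →
    ∃ m : Fin 3, (i = 6 ∧ j = ![0, 2, 4] m) ∨ (j = 6 ∧ i = ![0, 2, 4] m) ∨
      (i = ![0, 2, 4] m ∧ j = ![1, 3, 5] m) ∨ (j = ![0, 2, 4] m ∧ i = ![1, 3, 5] m) := by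
  decide

theorem two_le : ∃ G : SimpleGraph big, G.IsTree ∧ stabbingNumber G ≤ 2 := by
  classical
  let f : Fin 7 → big := fun i => ⟨pt i, by simp [big]⟩
  have hf : Function.Bijective f := by
    refine ⟨fun i j h => pt_inj (congrArg Subtype.val h), ?_⟩
    rintro ⟨p, hp⟩
    have hp' := hp
    simp only [big, Finset.mem_map, Finset.mem_univ, true_and] at hp'
    obtain ⟨i, hi⟩ := hp'
    exact ⟨i, Subtype.ext hi⟩
  let e : Fin 7 ≃ big := Equiv.ofBijective f hf
  have he : ∀ i, ((e i : big) : Plane) = pt i := fun i => rfl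
  refine ⟨H.comap e.symm, (SimpleGraph.Iso.comap e.symm H).isTree_iff.mpr H_tree, ?_⟩
  refine iSup₂_le ?_
  rintro ℓ ⟨a, b, c, hab, rfl⟩
  set F : Fin 3 → ℝ := fun m => a * v m 0 + b * v m 1 with hF
  let E : Fin 3 → Sym2 (Fin 7) := fun m => if |c| < |F m| then inner' m else outer' m
  have key : ∀ x ∈ stabbedEdges (H.comap e.symm) {x | a * x 0 + b * x 1 = c},
      ∃ m : Fin 3, x = Sym2.map e (E m) ∧ 0 < c * F m := by
    rintro _ ⟨p, q, hpq, hst, rfl⟩
    obtain ⟨i, rfl⟩ := e.surjective p
    obtain ⟨j, rfl⟩ := e.surjective q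
    rw [he, he] at hst
    have hadj : nbr i j = true := by
      have : H.Adj (e.symm (e i)) (e.symm (e j)) := hpq
      rwa [e.symm_apply_apply, e.symm_apply_apply] at this
    have hin : ∀ m : Fin 3, Stabs {x | a * x 0 + b * x 1 = c} (pt 6) (pt (![0, 2, 4] m)) →
        E m = inner' m ∧ 0 < c * F m := by
      intro m h
      rw [(pt_arm m).1, (pt_arm m).2.2] at h
      obtain ⟨r, hr0, hr1, hc, hne⟩ := of_stabs (v_ne m) (by norm_num) h
      have hF' : c = r * F m := hc
      have hFne : F m ≠ 0 := hne
      constructor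
      · have : |c| < |F m| := by
          rw [hF', abs_mul, abs_of_pos hr0]
          have := abs_pos.mpr hFne
          nlinarith
        simp only [E, if_pos this]
      · rw [hF', mul_assoc]
        have := mul_self_pos.mpr hFne
        positivity
    have hout : ∀ m : Fin 3, Stabs {x | a * x 0 + b * x 1 = c} (pt (![0, 2, 4] m))
        (pt (![1, 3, 5] m)) → E m = outer' m ∧ 0 < c * F m := by
      intro m h
      rw [(pt_arm m).1, (pt_arm m).2.1] at h
      obtain ⟨r, hr0, hr1, hc, hne⟩ := of_stabs (v_ne m) (by norm_num) h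
      have hF' : c = r * F m := hc
      have hFne : F m ≠ 0 := hne
      constructor
      · have : ¬ |c| < |F m| := by
          rw [hF', abs_mul, abs_of_pos (by linarith)]
          have := abs_pos.mpr hFne
          nlinarith
        simp only [E, if_neg this]
      · rw [hF', mul_assoc]
        have := mul_self_pos.mpr hFne
        have : 0 < r := by linarith
        positivity
    have hsi : ∀ m : Fin 3, inner' m = s(6, ![0, 2, 4] m) := by decide
    have hso : ∀ m : Fin 3, outer' m = s(![0, 2, 4] m, ![1, 3, 5] m) := by decide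
    obtain ⟨m, h⟩ := adj_cases i j hadj
    refine ⟨m, ?_⟩
    rcases h with ⟨rfl, rfl⟩ | ⟨rfl, rfl⟩ | ⟨rfl, rfl⟩ | ⟨rfl, rfl⟩
    · obtain ⟨h1, h2⟩ := hin m hst
      rw [h1, hsi]
      exact ⟨rfl, h2⟩
    · obtain ⟨h1, h2⟩ := hin m hst.symm
      rw [h1, hsi]
      exact ⟨Sym2.eq_swap, h2⟩
    · obtain ⟨h1, h2⟩ := hout m hst
      rw [h1, hso]
      exact ⟨rfl, h2⟩
    · obtain ⟨h1, h2⟩ := hout m hst.symm
      rw [h1, hso]
      exact ⟨Sym2.eq_swap, h2⟩
  have hsum : 2 * F 0 + F 1 + F 2 = 0 := by
    simp only [hF, v, pt_zero, pt_one]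
    simp [px, py]
    ring
  obtain ⟨m0, hm0⟩ : ∃ m, ¬ 0 < c * F m := by
    by_contra hcon
    push Not at hcon
    have h0 := hcon 0
    have h1 := hcon 1
    have h2 := hcon 2
    have : c * (2 * F 0 + F 1 + F 2) = 0 := by rw [hsum, mul_zero]
    nlinarith
  have hsub : stabbedEdges (H.comap e.symm) {x | a * x 0 + b * x 1 = c} ⊆
      (((Finset.univ.erase m0).image fun m => Sym2.map e (E m) : Finset (Sym2 big)) :
        Set (Sym2 big)) := by
    intro x hx
    obtain ⟨m, rfl, hm⟩ := key x hx
    rw [Finset.mem_coe, Finset.mem_image]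
    refine ⟨m, Finset.mem_erase.mpr ⟨?_, Finset.mem_univ _⟩, rfl⟩
    rintro rfl
    exact hm0 hm
  refine (Set.encard_le_encard hsub).trans ?_
  rw [Set.encard_coe_eq_coe_finsetCard]
  have h3 : ((Finset.univ.erase m0).image fun m => Sym2.map e (E m)).card ≤ 2 := by
    refine Finset.card_image_le.trans ?_
    rw [Finset.card_erase_of_mem (Finset.mem_univ _)]
    simp
  exact_mod_cast h3

theorem main :
    (∃ S' S : Finset Plane, S' ⊆ S ∧ S'.card = 6 ∧ S.card = 7 ∧
      treeStab S ≤ 2 ∧ 3 ≤ treeStab S') ∧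
    ¬ ∀ S' S : Finset Plane, S'.Nonempty → S' ⊆ S → treeStab S' ≤ treeStab S := by
  have h1 : treeStab big ≤ 2 := by
    obtain ⟨G, hG, h⟩ := two_le
    exact (iInf₂_le (f := fun (G : SimpleGraph big) (_ : G.IsTree) => stabbingNumber G) G hG).trans h
  have h2 : 3 ≤ treeStab small := le_iInf₂ fun G hG => three_le G hG
  refine ⟨⟨small, big, small_subset, by simp [small], by simp [big], h1, h2⟩, fun h => ?_⟩
  have h3 := (h2.trans (h small big small_nonempty small_subset)).trans h1
  exact absurd h3 (by decide)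

end Pool.Agent.N392.TreeStab
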