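import Mathlib
import Pool.Agent.N392.TreeStab.Defs
import Pool.Agent.N392.TreeStab.Proof

set_option autoImplicit false

namespace Pool.Agent.N392.TreeStab.NotMonotone

open Pool.Agent.N392.TreeStab

/-- The tree stabbing number is not monotone: there is a set `S` of seven points with
`TREE-STAB(S) ≤ 2` which has a subset `S'` of six points with `TREE-STAB(S') ≥ 3`. -/
theorem result :
    (∃ S' S : Finset Plane, S' ⊆ S ∧ S'.card = 6 ∧ S.card = 7 ∧
      treeStab S ≤ 2 ∧ 3 ≤ treeStab S') ∧
    ¬ ∀ S' S : Finset Plane, S'.Nonempty → S' ⊆ S → treeStab S' ≤ treeStab S :=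
  main

end Pool.Agent.N392.TreeStab.NotMonotone
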